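import Pool.Agent.helper74.TG.Defs

/-!
# Project GD (MP_ad8ced_nt): a Goldbach theorem for primes `p` with `8 p² - 1` almost prime
Definitions.
-/

set_option autoImplicit false

namespace GD

open Finset ArithmeticFunction
open Pool.Agent.helper74.TG (ee gb)

/-- `d` divides `8 n² - 1` (equivalent to `d ∣ 8 * n ^ 2 - 1` for `n ≥ 1`). -/
abbrev dv (d n : ℕ) : Prop := 8 * n ^ 2 ≡ 1 [MOD d]

/-- the product of a finite set -/
def pr (K : Finset ℕ) : ℕ := ∏ l ∈ K, l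

/-- the primes up to `w` -/
def Ps (w : ℕ) : Finset ℕ := (Icc 1 w).filter Nat.Prime

/-- the primes `≡ ± 1 mod 8` in `(w, z]` -/
noncomputable def Qs (w : ℕ) (z : ℝ) : Finset ℕ :=
  (Icc 1 ⌊z⌋₊).filter fun l => l.Prime ∧ w < l ∧ (l % 8 = 1 ∨ l % 8 = 7)

/-- `(log X)^C`, rounded down -/
noncomputable def wX (X C : ℕ) : ℕ := ⌊Real.log X ^ C⌋₊

/-- `∏_{l ≤ w} (1 - 1/l)⁻¹` -/
noncomputable def cw (w : ℕ) : ℝ := ∏ l ∈ Ps w, (1 - 1 / (l : ℝ))⁻¹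

/-- the model of the von Mangoldt function -/
noncomputable def Lw (w n : ℕ) : ℝ := if ∀ l ∈ Ps w, ¬ l ∣ n then cw w else 0

/-- indicator: no prime `≤ w` divides `8 n² - 1` -/
noncomputable def sh (w n : ℕ) : ℝ := if ∀ l ∈ Ps w, ¬ dv l n then 1 else 0

/-- the truncated inclusion-exclusion sum for `sh` -/
noncomputable def Bt (w s n : ℕ) : ℝ :=
  ∑ E ∈ (Ps w).powerset with #E ≤ s ∧ dv (pr E) n, (-1 : ℝ) ^ #E

/-- divisor sum over the divisors of `8 n² - 1` composed of elements of `Q` -/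
noncomputable def Fv (Q : Finset ℕ) (ξ : Finset ℕ → ℝ) (n : ℕ) : ℝ :=
  ∑ D ∈ Q.powerset with dv (pr D) n, ξ D

/-- its expectation (two roots modulo each prime of `Q`) -/
noncomputable def Ev (Q : Finset ℕ) (ξ : Finset ℕ → ℝ) : ℝ :=
  ∑ D ∈ Q.powerset, ξ D * (2 ^ #D / (pr D : ℝ))

/-- size and support of coefficients -/
def Cf (Q : Finset ℕ) (ξ : Finset ℕ → ℝ) (K : ℕ) (G R : ℝ) : Prop :=
  ∀ D ∈ Q.powerset, |ξ D| ≤ (K : ℝ) ^ #D * G ∧ (ξ D ≠ 0 → (pr D : ℝ) ≤ R)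

/-- a choice of a reduced class for every modulus -/
def Cls (c : ℕ → ℕ) : Prop := ∀ d : ℕ, 0 < d → Nat.Coprime (c d) d

/-- exponential sum in a residue class -/
noncomputable def Sd (X : ℕ) (u : ℕ → ℝ) (d c : ℕ) (α : ℝ) : ℂ :=
  ∑ n ∈ Ioc 0 X with n ≡ c [MOD d], (u n : ℂ) * ee (n * α)

/-- additive convolution -/
noncomputable def cv (N : ℕ) (a b : ℕ → ℝ) : ℝ := ∑ m ∈ Ioo 0 N, a m * b (N - m)

/-- the number of classes excluded modulo `l` in the main term -/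
def om (N l : ℕ) : ℕ :=
  #((range l).filter fun n => n ≡ 0 [MOD l] ∨ n ≡ N [MOD l] ∨ dv l n ∨ dv l (N + (l - 1) * n))

/-- the local factor -/
noncomputable def VN (w N : ℕ) : ℝ := cw w ^ 2 * ∏ l ∈ Ps w, (1 - (om N l : ℝ) / l)

/-- the elements of `Q` dividing `8 n² - 1` -/
def At (Q : Finset ℕ) (n : ℕ) : Finset ℕ := Q.filter fun l => dv l n

/-- `∏_{l ∈ K} 2/(l-2)` -/
noncomputable def hh (K : Finset ℕ) : ℝ := ∏ l ∈ K, 2 / ((l : ℝ) - 2)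

/-- subsets of `Q` with product at most `R` -/
noncomputable def Sub (Q : Finset ℕ) (R : ℝ) : Finset (Finset ℕ) :=
  Q.powerset.filter fun K => (pr K : ℝ) ≤ R

noncomputable def Gs (Q : Finset ℕ) (R : ℝ) : ℝ := ∑ K ∈ Sub Q R, hh K

noncomputable def ch (K A : Finset ℕ) : ℝ := ∏ l ∈ K, (if l ∈ A then 1 - (l : ℝ) / 2 else 1)

/-- Selberg's weight -/
noncomputable def Sg (Q : Finset ℕ) (R : ℝ) (A : Finset ℕ) : ℝ := ∑ K ∈ Sub Q R, ch K A * hh K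

/-- `∑_{l ∈ A} v l` -/
noncomputable def Vv (v : ℕ → ℝ) (A : Finset ℕ) : ℝ := ∑ l ∈ A, v l

/-- expectation over random subsets of `Q`, `l` chosen with probability `2/l` -/
noncomputable def Ex (Q : Finset ℕ) (F : Finset ℕ → ℝ) : ℝ :=
  ∑ A ∈ Q.powerset, (∏ l ∈ A, (2 / (l : ℝ))) * (∏ l ∈ Q \ A, (1 - 2 / (l : ℝ))) * F A

/-- the weights `1 - log l / log y + T 1_{l ≤ X^δ}`, `y = X^υ` -/
noncomputable def vv (υ T δ : ℝ) (X l : ℕ) : ℝ :=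
  (1 - Real.log l / (υ * Real.log X)) + if (l : ℝ) ≤ (X : ℝ) ^ δ then T else 0

open Classical in
/-- contribution of the characters modulo `m` of conductor in `(R, 2R]` to the indicator of the
class `c` modulo `m` -/
noncomputable def kp (R m c n : ℕ) : ℝ :=
  (1 / (Nat.totient m : ℝ)) *
    (∑ χ : DirichletCharacter ℂ m with R < χ.conductor ∧ χ.conductor ≤ 2 * R,
      (starRingEnd ℂ) (χ c) * χ n).re

open Classical in
/-- the same for the characters of conductor at most `R` -/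
noncomputable def ks (R m c n : ℕ) : ℝ :=
  (1 / (Nat.totient m : ℝ)) *
    (∑ χ : DirichletCharacter ℂ m with χ.conductor ≤ R, (starRingEnd ℂ) (χ c) * χ n).re

open Classical in
/-- the bad moduli -/
noncomputable def Bad (α Z : ℝ) (D Y : ℕ) : Finset ℕ :=
  (Icc D (2 * D)).filter fun d : ℕ => ∃ r ∈ Icc 1 Y,
    |(r : ℝ) * (d : ℝ) ^ 2 * α - round ((r : ℝ) * (d : ℝ) ^ 2 * α)| ≤ 1 / Z

open Classical in
/-- `n ≤ X` with `8n²-1` divisible by the square of a prime `> X^δ` -/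
noncomputable def NSq (X : ℕ) (δ : ℝ) : Finset ℕ :=
  (Icc 1 X).filter fun n : ℕ => ∃ l : ℕ, l.Prime ∧ (X : ℝ) ^ δ < (l : ℝ) ∧ l ^ 2 ∣ 8 * n ^ 2 - 1

/-! ## parameters -/

noncomputable def ρ₁ : ℝ := 1 / 30
noncomputable def υ₁ : ℝ := 53 / 200
noncomputable def T₁ : ℝ := 11 - 2 / υ₁ - 1 / 100
noncomputable def ρ₂ : ℝ := 1 / 10
noncomputable def υ₂ : ℝ := 59 / 200
noncomputable def T₂ : ℝ := 11 - 2 / υ₂ - 1 / 100

/-- `Λ(n) · [no prime ≤ w divides 8n²-1] · Sg² ` -/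
noncomputable def a0 (X C : ℕ) (ρ υ : ℝ) (n : ℕ) : ℝ :=
  vonMangoldt n * sh (wX X C) n *
    Sg (Qs (wX X C) ((X : ℝ) ^ υ)) ((X : ℝ) ^ ρ) (At (Qs (wX X C) ((X : ℝ) ^ υ)) n) ^ 2

/-- the same with the weight `V` -/
noncomputable def a1 (X C : ℕ) (ρ υ T δ : ℝ) (n : ℕ) : ℝ :=
  a0 X C ρ υ n * Vv (vv υ T δ X) (At (Qs (wX X C) ((X : ℝ) ^ υ)) n)

/-- the total weight -/
noncomputable def WW (X C : ℕ) (δ : ℝ) (N : ℕ) : ℝ :=
  cv N (a0 X C ρ₁ υ₁) (a0 X C ρ₂ υ₂) - (1 / T₁) * cv N (a1 X C ρ₁ υ₁ T₁ δ) (a0 X C ρ₂ υ₂)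
    - (1 / T₂) * cv N (a0 X C ρ₁ υ₁) (a1 X C ρ₂ υ₂ T₂ δ)

/-- the two normalisations -/
noncomputable def G1 (X C : ℕ) : ℝ := Gs (Qs (wX X C) ((X : ℝ) ^ υ₁)) ((X : ℝ) ^ ρ₁)
noncomputable def G2 (X C : ℕ) : ℝ := Gs (Qs (wX X C) ((X : ℝ) ^ υ₂)) ((X : ℝ) ^ ρ₂)

/-- `p` is prime, `8p²-1` has at most 10 prime factors (with multiplicity), all greater than `z` -/
def Good (z : ℝ) (p : ℕ) : Prop :=
  p.Prime ∧ ArithmeticFunction.cardFactors (8 * p ^ 2 - 1) ≤ 10 ∧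
    ∀ l : ℕ, l.Prime → l ∣ 8 * p ^ 2 - 1 → z < (l : ℝ)

/-- representations of `N` as a sum of two good primes -/
def Reps (z : ℝ) (N : ℕ) : Set ℕ := {p | p ≤ N ∧ Good z p ∧ Good z (N - p)}

end GD
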