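import Pool.Agent.helper8.GD.Defs

/-!
# Project GD (MP_ad8ced_nt): statements of the modules

THEOREM.  There are `c, δ > 0` such that for every `A` all but `O(X/(log X)^A)` even `N ≤ X` have at
least `c N/(log N)^4` representations `N = p + q` with `p, q` prime such that `8p²-1` and `8q²-1` have
at most 10 prime factors each, all greater than `N^δ`.

RULES.  File `Pool/Agent/<seat>/GD/XX.lean`, `import Pool.Agent.helper8.GD.Spec`, `namespace GD`,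
`theorem XX (h1 : YY_stmt) ... : XX_stmt` (any other statement of this file may be a hypothesis),
auxiliary lemmas prefixed `XX_`.  `L = Real.log X` below; `X` is a natural number; `X₀` is large in
terms of all previously quantified parameters.  Throughout `gb M β = min(M, 1/(2‖β‖))`
(`Pool/Agent/helper74/TG/Defs.lean`), lemmas for it in `Pool/Agent/helper85/TG/VA1..VA4.lean`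
(`geom_bound`, `gb_mono`, `typeI_sum`, `typeII_sum`).  Full notes: /team-store/GD_NOTES.md.
-/

set_option autoImplicit false

namespace GD

open Finset ArithmeticFunction
open Pool.Agent.helper74.TG (ee gb)

/-! ## A. Exponential sums in progressions, minor arcs -/

/-- **E1** (type I on average).  `gb (X/k+1) ≤ gb (2X/k)` for `k ≤ X` (`gb_mono`), Cauchy-Schwarz:
`∑ τ(k) gb ≤ (∑ τ(k)² 2X/k)^(1/2) (∑ gb(2X/k))^(1/2)`; `typeI_sum` (helper85/TG/VA2) with `M = 2X`;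
`∑_{k≤Y} τ(k)²/k ≤ C (1+log Y)^4` (partial summation from `sum_tau_sq_le`, helper85/BVP/Tau). -/
def E1_stmt : Prop := ∃ C : ℝ, 0 < C ∧ ∀ (α : ℝ) (a : ℤ) (q X Y : ℕ), 0 < q → 0 < Y → q ≤ X → Y ≤ X →
  IsCoprime a (q : ℤ) → |α - a / q| ≤ 1 / (q : ℝ) ^ 2 →
  ∑ k ∈ Ioc 0 Y, (k.divisors.card : ℝ) * gb ((X : ℝ) / k + 1) (k * α) ≤
    C * √X * √((X : ℝ) / q + Y + q) * (1 + Real.log X) ^ 3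

/-- **E2** (type II for one modulus).  Cauchy-Schwarz over `m`; expand the square: pairs `n₁ ≡ n₂ mod d`
(both prime to `d`), `n₁ - n₂ = ± d h`; the inner sum over `m` runs over an interval of length `≤ M` in one
class modulo `d`, so it is at most `gb (M/d+1) (d² h α)` (`geom_bound`, evenness and monotonicity of `gb`);
`|y_n y_{n+dh}| ≤ (y² + y²)/2`.  Compare `bilinear` in helper85/TG/VA3.lean (`d = 1`). -/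
def E2_stmt : Prop := ∀ (α : ℝ) (d c N M : ℕ) (x y : ℕ → ℝ), 0 < d → Nat.Coprime c d → 0 < M → M ≤ N →
  ‖∑ m ∈ Ioc M (2 * M), ∑ n ∈ Ioc 0 (N / m) with m * n ≡ c [MOD d],
      ((x m * y n : ℝ) : ℂ) * ee (m * n * α)‖ ^ 2 ≤
    2 * (∑ m ∈ Ioc M (2 * M), x m ^ 2) * (∑ n ∈ Ioc 0 (N / M), y n ^ 2) *
      ∑ h ∈ range (N / M / d + 1), gb ((M : ℝ) / d + 1) (d ^ 2 * h * α)

/-- **E4** (number of bad moduli).  Let `S` be the set; for `r ≤ Y` let `S_r` be the set of `d` with this `r`.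
`#S ≤ ∑_r #S_r ≤ √Y (∑_r #S_r²)^(1/2)`.  `#S_r² ≤ #S_r + 2 #{(d₁,d₂) : d₂ < d₁}`, and for such a pair
`u = d₁-d₂, v = d₁+d₂` satisfy `u v ≤ 4D²·..`, `‖r u v α‖ ≤ 2/Z`.  Hence `∑_r #S_r² ≤ 2 Y (D+1) +
2 ∑_{k ≤ W} τ(k)² 1[‖kα‖ ≤ 2/Z]`, `W = 8 D² Y` (`k = r u v`, number of `(r,u,v)` at most `τ(k)²`).
Cauchy-Schwarz with `∑_{k≤W} τ(k)^4 ≤ C W (1+log W)^15`, and `#{k ≤ W : ‖kα‖ ≤ 2/Z} · Z/4 ≤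
∑ gb (Z/4) (kα)` bounded by `typeII_sum` (if `Z < 4` the bound is trivial). -/
def E4_stmt : Prop := ∃ C : ℝ, 0 < C ∧ ∀ (α Z : ℝ) (a : ℤ) (q D X Y : ℕ), 0 < q → 0 < D → 0 < Y → 1 ≤ Z →
  q ≤ X → D ≤ X → Y ≤ X → IsCoprime a (q : ℤ) → |α - a / q| ≤ 1 / (q : ℝ) ^ 2 →
  (#(Bad α Z D Y) : ℝ) ^ 2 ≤
    C * Y * (1 + Real.log X) ^ 10 *
      (Y * D + D * √Y * √((D : ℝ) ^ 2 * Y / Z + D ^ 2 * Y / q + q / Z + 1))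

/-- **E5** (small moduli are good).  `k = r d² ≤ q/2`, `k ≥ 1`: `‖kα‖ ≥ ‖ka/q‖ - k/q² ≥ 1/q - 1/(2q) > 1/Z`. -/
def E5_stmt : Prop := ∀ (α Z : ℝ) (a : ℤ) (q d Y r : ℕ), 0 < q → 0 < d → IsCoprime a (q : ℤ) →
  |α - a / q| ≤ 1 / (q : ℝ) ^ 2 → 2 * d ^ 2 * Y ≤ q → 2 * (q : ℝ) < Z → 1 ≤ r → r ≤ Y →
  1 / Z < |(r : ℝ) * d ^ 2 * α - round ((r : ℝ) * d ^ 2 * α)|

/-- **E6** (type II on average over the moduli).  Put `Y = ⌊L^B₁⌋`, `Z = X/(4 D² Y)` (`≥ X^(1/3-)`).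
For any `d` in the range `∑_h gb ≤ 4 X/d²` (as `X^(1/3) > d`), so by E2 `‖S_d‖ ≤ C (X/d) L^A'`.
If no `r ≤ Y` has `‖r d² α‖ ≤ 1/Z` then by Dirichlet (`Real.exists_int_int_abs_mul_sub_le`) there is
`|d² α - a'/q'| ≤ 1/q'^2` with `Y ≤ q' ≤ Z + 1` and `typeII_sum` gives `∑_h gb ≤ C (X/d²) L/Y`
(every other term saves a power of `X`).  The number of bad `d` is `≤ D L^(-A-A'-..)`: by E5 there is none for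
`D ≤ L^(B/4)`, and E4 for larger `D` (`q/Z ≤ 4 D² Y L^(-B)`, `D² Y/q ≤ D² Y L^(-B)`, `D² Y/Z` tiny).
Choose `B₁` then `B`. -/
def E6_stmt : Prop := ∀ θ : ℝ, 0 < θ → θ < 1 / 3 → ∀ A A' : ℕ, ∃ B X₀ : ℕ, ∀ X : ℕ, X₀ ≤ X →
  ∀ (α : ℝ) (a : ℤ) (q : ℕ), Real.log X ^ B ≤ q → (q : ℝ) ≤ X / Real.log X ^ B →
  IsCoprime a (q : ℤ) → |α - a / q| ≤ 1 / (q : ℝ) ^ 2 → ∀ c : ℕ → ℕ, Cls c →
  ∀ D M : ℕ, 0 < D → (D : ℝ) ≤ (X : ℝ) ^ θ → (X : ℝ) ^ (1 / 3 : ℝ) ≤ 2 * M →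
  (M : ℝ) ≤ 2 * (X : ℝ) ^ (2 / 3 : ℝ) → ∀ x y : ℕ → ℝ,
  ∑ m ∈ Ioc M (2 * M), x m ^ 2 ≤ M * Real.log X ^ A' →
  ∑ n ∈ Ioc 0 (X / M), y n ^ 2 ≤ X / M * Real.log X ^ A' →
  ∑ d ∈ Icc D (2 * D), ‖∑ m ∈ Ioc M (2 * M), ∑ n ∈ Ioc 0 (X / m) with m * n ≡ c d [MOD d],
      ((x m * y n : ℝ) : ℂ) * ee (m * n * α)‖ ≤ X / Real.log X ^ A

/-- **E7** (`Λ` on the minor arcs, level `< 1/3`, any residue classes).  Vaughan's identity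
(`Pool.Agent.helper85.BVP.vaughan`, see the proof of `vaughan_minor` in helper85/TG/VA4.lean) with
`U = V = ⌊X^(1/3)⌋` applied to `w(n) = 1[n ≡ c(d)] ee(nα)`.  Type I parts: for `(k, d) = 1`,
`|∑_{b ≤ y, k b ≡ c(d)} ee(k b α)| ≤ gb (y/d + 1) (k d α)`; summing over `k ≤ U²` and `d ≤ X^θ` and putting
`j = k d` gives `∑_{j ≤ X^(θ+2/3)} τ(j) gb (X/j+1) (jα)`: E1.  Type II part: dyadic blocks in `a ∈ (U, X/V]`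
and in `d`, each by E6 (`β(b)` is bounded by `τ(b)`; `Λ(a) ≤ L`). -/
def E7_stmt : Prop := ∀ θ : ℝ, 0 < θ → θ < 1 / 3 → ∀ A : ℕ, ∃ B X₀ : ℕ, ∀ X : ℕ, X₀ ≤ X →
  ∀ (α : ℝ) (a : ℤ) (q : ℕ), Real.log X ^ B ≤ q → (q : ℝ) ≤ X / Real.log X ^ B →
  IsCoprime a (q : ℤ) → |α - a / q| ≤ 1 / (q : ℝ) ^ 2 → ∀ c : ℕ → ℕ, Cls c →
  ∑ d ∈ Icc 1 ⌊(X : ℝ) ^ θ⌋₊, ‖Sd X (fun n => vonMangoldt n) d (c d) α‖ ≤ X / Real.log X ^ A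

/-- **CW**.  Mertens: `cw w ≤ exp(∑_{l≤w} 1/l + C) ≤ C log w`.  (Upper bound for `∑ 1/l` from the upper
bound of Mertens for `∑ Λ(n)/n`: `BB6a.mertens` in helper22/OC/BB6a.lean, by partial summation.) -/
def CW_stmt : Prop := ∃ C : ℝ, 0 < C ∧ ∀ w : ℕ, 2 ≤ w → 1 ≤ cw w ∧ cw w ≤ C * Real.log w

/-- **E8** (the model on the minor arcs, level `< 1`).  `1[(n,P(w))=1] = ∑_{E ⊆ Ps w, |E| ≤ s, pr E | n} (-1)^|E|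
+ O(∑_{|E|=s+1, pr E | n} 1)` (Bonferroni), `s = ⌊S log L⌋`, `S` large in terms of `A, C`.  Main part: for
`(pr E, d) = 1` the sum over `n ≤ X`, `n ≡ c(d)`, `pr E | n` of `ee(nα)` is `≤ gb (X/(d pr E)+1) (d pr E α)`
(empty otherwise); with `k = d pr E ≤ X^θ w^s ≤ X^(θ')` use E1.  Error: `≤ (X/d) (∑_{l≤w} 1/l)^(s+1)/(s+1)! +
w^(s+1)`, and `(e (1 + C log L)/(s+1))^(s+1) ≤ L^(-A-..)`.  `cw ≤ L` by CW.  `B` must not depend on `C`. -/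
def E8_stmt : Prop := ∀ θ : ℝ, 0 < θ → θ < 1 → ∀ A : ℕ, ∃ B : ℕ, ∀ C : ℕ, 0 < C → ∃ X₀ : ℕ,
  ∀ X : ℕ, X₀ ≤ X → ∀ (α : ℝ) (a : ℤ) (q : ℕ), Real.log X ^ B ≤ q → (q : ℝ) ≤ X / Real.log X ^ B →
  IsCoprime a (q : ℤ) → |α - a / q| ≤ 1 / (q : ℝ) ^ 2 → ∀ c : ℕ → ℕ, Cls c →
  ∑ d ∈ Icc 1 ⌊(X : ℝ) ^ θ⌋₊, ‖Sd X (Lw (wX X C)) d (c d) α‖ ≤ X / Real.log X ^ A

/-! ## B. Bombieri-Vinogradov, level `1/2`, and the major arcs -/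

/-- **BV1** (bilinear forms, conductor in `(R, 2R]`).  `χ mod m` of conductor `r`, `m = r s`, is
`χ(n) = χ'(n) 1[(n,s)=1]` with `χ'` primitive mod `r`; `φ(rs) ≥ φ(r) φ(s)`.  So the sum is at most
`∑_{s≤Q} 1/φ(s) · (1/R) ∑_{R<r≤2R} (r/φ(r)) ∑*_χ' |A_s(χ')| |B_s(χ')|`; Cauchy-Schwarz and
`Pool.Agent.helper85.MT.mult_large_sieve` (helper85/MT/MLS.lean); `∑_{s≤Q} 1/φ(s) ≤ C (1+log Q)`. -/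
def BV1_stmt : Prop := ∃ C : ℝ, 0 < C ∧ ∀ (Q R : ℕ) (c : ℕ → ℕ) (α β : ℕ → ℝ) (M₁ M₂ N₁ N₂ : ℕ),
  1 ≤ Q → 1 ≤ R → M₁ ≤ M₂ → N₁ ≤ N₂ →
  ∑ m ∈ Icc 1 Q, |∑ a ∈ Ioc M₁ M₂, ∑ b ∈ Ioc N₁ N₂, α a * β b * kp R m (c m) (a * b)| ≤
    C * (1 + Real.log Q) / R *
      √((((M₂ - M₁ : ℕ) : ℝ) + 4 * R ^ 2) * (((N₂ - N₁ : ℕ) : ℝ) + 4 * R ^ 2) *
        (∑ a ∈ Ioc M₁ M₂, α a ^ 2) * (∑ b ∈ Ioc N₁ N₂, β b ^ 2))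

/-- **BV2**.  `|kp| ≤ 1` (at most `φ(m)` characters).  Second: for `χ` of conductor `r ∈ (R,2R]`,
`|∑_{j≤y} χ(kj)| ≤ |∑_{j≤y, (j,m/r)=1} χ'(j)| ≤ ∑_{e | m} |∑_{j ≤ y/e} χ'(j)| ≤ τ(m) r`
(`χ'` is not principal since `r > R ≥ 1`; sums over periods vanish). -/
def BV2_stmt : Prop := ∀ R m c : ℕ, 1 ≤ R → 0 < m →
  (∀ n : ℕ, |kp R m c n| ≤ 1) ∧
  ∀ k y : ℕ, |∑ j ∈ Ioc 0 y, kp R m c (k * j)| ≤ 2 * R * m.divisors.card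

/-- **BV3** (large conductors).  `Pool.Agent.helper85.SQ.raw` (helper85/SQ/RAW.lean) with `P = Icc 1 Q`,
`Q = ⌊X^(1/2-ε)⌋`, `κ m n = kp R m (c m) n`, `A = C(1+log Q)/R`, `D = 4R²`, `T = 2 R max τ(m) ≤ R X^(ε/8)`,
`x = t`, `U = ⌊X^(ε/4)⌋`.  For `R > Q` all `kp R m` with `m ≤ Q` vanish.  Result:
`Q R X^(ε/8+ε/2+) + L^C (X/R + X/√U + R √X) ≤ X L^(-A)` for `L^B ≤ R ≤ Q`. -/
def BV3_stmt : Prop := ∀ ε : ℝ, 0 < ε → ε < 1 / 2 → ∀ A : ℕ, ∃ B X₀ : ℕ, ∀ X : ℕ, X₀ ≤ X → ∀ t : ℕ, t ≤ X →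
  ∀ c : ℕ → ℕ, Cls c → ∀ R : ℕ, Real.log X ^ B ≤ R →
  ∑ m ∈ Icc 1 ⌊(X : ℝ) ^ (1 / 2 - ε)⌋₊, |∑ n ∈ Ioc 0 t, vonMangoldt n * kp R m (c m) n| ≤
    X / Real.log X ^ A

/-- **BV4** (small conductors).  Principal character: `psi_pnt`; the others: `psi_char` for the primitive
character inducing it (modulus `≤ L^B`) (helper74/TG/SW.lean); `|ψ(t,χ)-ψ(t,χ')| ≤ ∑_{n≤t,(n,m)>1} Λ(n) ≤ C L²`;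
at most `L^(2B)` characters mod `m` of conductor `≤ R`.  For `t ≤ X/L^(A+2B+2)` bound trivially (`∑Λ ≤ 3t`). -/
def BV4_stmt : Prop := ∀ A B : ℕ, ∃ X₀ : ℕ, ∀ X : ℕ, X₀ ≤ X → ∀ t : ℕ, t ≤ X → ∀ m c R : ℕ, 0 < m → m ≤ X →
  Nat.Coprime c m → 1 ≤ R → (R : ℝ) ≤ Real.log X ^ B →
  |∑ n ∈ Ioc 0 t, vonMangoldt n * ks R m c n - t / (Nat.totient m : ℝ)| ≤
    (1 / (Nat.totient m : ℝ)) * X / Real.log X ^ A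

/-- **BV** (Bombieri-Vinogradov).  Orthogonality: for `(c,m)=1`, `1[n ≡ c (m)] = ks R₀ m c n +
∑_i kp (R₀ 2^i) m c n`, `R₀ = ⌈L^B⌉`, `i ≤ 2 L`; BV4 and BV3. -/
def BV_stmt : Prop := ∀ ε : ℝ, 0 < ε → ε < 1 / 2 → ∀ A : ℕ, ∃ X₀ : ℕ, ∀ X : ℕ, X₀ ≤ X → ∀ t : ℕ, t ≤ X →
  ∀ c : ℕ → ℕ, Cls c →
  ∑ m ∈ Icc 1 ⌊(X : ℝ) ^ (1 / 2 - ε)⌋₊,
    |∑ n ∈ Ioc 0 t with n ≡ c m [MOD m], vonMangoldt n - t / (Nat.totient m : ℝ)| ≤ X / Real.log X ^ A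

/-- **M1** (sieving few classes modulo the primes `≤ (log X)^C`, in a progression).  Truncated
inclusion-exclusion: with `bad(n) = {l ∈ P : n % l ∈ Ω l}`, `|1[bad=∅] - ∑_{E⊆bad,|E|≤s} (-1)^|E|| ≤
#{E ⊆ bad, |E| = s+1}`, `s = ⌊S log L⌋`; `#{n ≤ t : n ≡ a (d), E ⊆ bad(n)} = ∏_{l∈E} #Ω_l (t/(d pr E) + O(1))`
(CRT); `|∏(1-x_l) - ∑_{|E|≤s} (-1)^|E| x_E| ≤ e_{s+1}(x)`, `e_{s+1} ≤ (6 ∑_{l≤w} 1/l)^(s+1)/(s+1)!` and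
`∑_{l≤w} 1/l ≤ 1 + C log L`; `#{E : |E| ≤ s+1} 6^(s+1) ≤ (12 w)^(s+1)·.. = exp(C' (log L)²) ≤ X^ε`. -/
def M1_stmt : Prop := ∀ (A C : ℕ) (ε : ℝ), 0 < ε → ∃ X₀ : ℕ, ∀ X : ℕ, X₀ ≤ X →
  ∀ P ⊆ Ps (wX X C), ∀ Ω : ℕ → Finset ℕ, (∀ l ∈ P, Ω l ⊆ range l ∧ #(Ω l) ≤ 6) →
  ∀ d a t : ℕ, 0 < d → t ≤ X → (∀ l ∈ P, Nat.Coprime l d) →
  |(#((Ioc 0 t).filter fun n => n ≡ a [MOD d] ∧ ∀ l ∈ P, n % l ∉ Ω l) : ℝ)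
     - t / d * ∏ l ∈ P, (1 - (#(Ω l) : ℝ) / l)| ≤ X / d / Real.log X ^ A + (X : ℝ) ^ ε

/-- **E11** (the model in progressions, level `< 1`).  M1 with `P = {l ≤ w : l ∤ m}`, `Ω l = {0}`:
`cw (t/m) ∏_{l≤w, l∤m}(1-1/l) = (t/φ(m)) ∏_{l|m, l>w} (1-1/l)`, and
`0 ≤ 1 - ∏_{l|m,l>w}(1-1/l) ≤ ∑_{l|m,l>w} 1/l ≤ 2L/w`; `∑_{m≤X} 1/φ(m) ≤ C L`; CW. -/
def E11_stmt : Prop := ∀ θ : ℝ, 0 < θ → θ < 1 → ∀ A : ℕ, ∃ C₁ : ℕ, ∀ C : ℕ, C₁ ≤ C → ∃ X₀ : ℕ,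
  ∀ X : ℕ, X₀ ≤ X → ∀ t : ℕ, t ≤ X → ∀ c : ℕ → ℕ, Cls c →
  ∑ m ∈ Icc 1 ⌊(X : ℝ) ^ θ⌋₊,
    |∑ n ∈ Ioc 0 t with n ≡ c m [MOD m], Lw (wX X C) n - t / (Nat.totient m : ℝ)| ≤ X / Real.log X ^ A

/-- **E9** (major arcs, level `< 1/2`).  Partial summation: with `β = α - a/q`, `|β| ≤ L^B/X`,
`|∑_{n≤X} f(n) ee(nβ)| ≤ |F(X)| + 2π|β| ∑_{t<X} |F(t)|`, `F(t) = ∑_{n≤t, n≡c(d)} (Λ-Lw)(n) ee(na/q)`.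
Split `n` mod `q`: for `(b,q)=1`, `b ≡ c mod (d,q)`, the class modulo `m = [d,q]` is reduced; difference bounded
by BV and E11 for the modulus `m ≤ X^θ L^B`; each `m` arises from at most `q` moduli `d` and there are `≤ q`
classes `b` (take for each `m` the worst reduced class).  `(b,q) > 1`: `Lw` vanishes (`w ≥ L^B ≥ q` for
`C ≥ B+1`), `∑_{n≤t,(n,q)>1} Λ(n) ≤ L^2·..`. -/
def E9_stmt : Prop := ∀ θ : ℝ, 0 < θ → θ < 1 / 2 → ∀ A B : ℕ, ∃ C₁ : ℕ, ∀ C : ℕ, C₁ ≤ C → ∃ X₀ : ℕ,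
  ∀ X : ℕ, X₀ ≤ X → ∀ (α : ℝ) (a : ℤ) (q : ℕ), 0 < q → (q : ℝ) ≤ Real.log X ^ B →
  IsCoprime a (q : ℤ) → |α - a / q| ≤ Real.log X ^ B / X → ∀ c : ℕ → ℕ, Cls c →
  ∑ d ∈ Icc 1 ⌊(X : ℝ) ^ θ⌋₊, ‖Sd X (fun n => vonMangoldt n - Lw (wX X C) n) d (c d) α‖ ≤
    X / Real.log X ^ A

/-- **ES** (summary).  Dirichlet: `Real.exists_int_int_abs_mul_sub_le` with `n = ⌊X/L^B⌋`: either `α` is as in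
E9 or as in E7, E8.  Weights `K^ω(d)`: Cauchy-Schwarz with the trivial bound `‖Sd‖ ≤ (X/d+1)(L + cw) ≤
2(X/d)·2L·..` (CW) and `∑_{d≤X} K^(2ω(d))/d ≤ (1+log X)^(K²)`-type bound (squarefree `d`).
Order of choices: `B` from E7, E8; `C₁` from E9; `X₀`. -/
def ES_stmt : Prop := ∀ θ₁ θ₂ : ℝ, 0 < θ₁ → θ₁ < 1 / 3 → 0 < θ₂ → θ₂ < 1 / 2 → ∀ K A : ℕ,
  ∃ C₁ : ℕ, ∀ C : ℕ, C₁ ≤ C → ∃ X₀ : ℕ, ∀ X : ℕ, X₀ ≤ X → ∀ α : ℝ,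
  (∀ c : ℕ → ℕ, Cls c → ∑ d ∈ Icc 1 ⌊(X : ℝ) ^ θ₁⌋₊ with Squarefree d,
      (K : ℝ) ^ d.primeFactors.card * ‖Sd X (fun n => vonMangoldt n - Lw (wX X C) n) d (c d) α‖ ≤
        X / Real.log X ^ A) ∧
  ((∀ c : ℕ → ℕ, Cls c → ∑ d ∈ Icc 1 ⌊(X : ℝ) ^ θ₂⌋₊ with Squarefree d,
      (K : ℝ) ^ d.primeFactors.card * ‖Sd X (fun n => vonMangoldt n - Lw (wX X C) n) d (c d) α‖ ≤
        X / Real.log X ^ A) ∨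
   (∀ c : ℕ → ℕ, Cls c → ∑ d ∈ Icc 1 ⌊(X : ℝ) ^ θ₂⌋₊ with Squarefree d,
      (K : ℝ) ^ d.primeFactors.card * ‖Sd X (Lw (wX X C)) d (c d) α‖ ≤ X / Real.log X ^ A))

/-! ## C. Transfer to the model -/

/-- **RT** (roots of `8 n² ≡ 1`).  For `l ≡ ±1 mod 8`, `2` is a square (`ZMod.exists_sq_eq_two_iff`), so is `8`,
two roots; conversely a root makes `2` a square, `l` odd.  CRT for the composite case. -/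
def RT_stmt : Prop :=
  (∀ l : ℕ, l.Prime → (l % 8 = 1 ∨ l % 8 = 7) → #((range l).filter fun n => dv l n) = 2) ∧
  (∀ l n : ℕ, l.Prime → dv l n → (l % 8 = 1 ∨ l % 8 = 7)) ∧
  (∀ D : Finset ℕ, (∀ l ∈ D, l.Prime ∧ (l % 8 = 1 ∨ l % 8 = 7)) →
    #((range (pr D)).filter fun n => dv (pr D) n) = 2 ^ #D) ∧
  (∀ d : ℕ, Squarefree d → #((range d).filter fun n => dv d n) ≤ 2 ^ d.primeFactors.card) ∧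
  (∀ d n : ℕ, dv d n → Nat.Coprime n d)

/-- **KO** (moments of `K^ω(8n²-1)`).  For `m = 8n²-1 ≤ 8X²`: at most 10 primes of `m` exceed `X^(1/4)`; group the
others greedily into at most 10 squarefree divisors `d_i ≤ X^(1/2)` of `m`; so `K^ω(m) ≤ K^10 ∑_{d | m,
d ≤ √X, squarefree} K^(10 ω(d))`.  Sum over `n`: at most `2^ω(d)(X/d+1)` values of `n` for each `d` (RT). -/
def KO_stmt : Prop := ∀ K : ℕ, ∃ C X₀ : ℕ, ∀ X : ℕ, X₀ ≤ X →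
  ∑ n ∈ Icc 1 X, (K : ℝ) ^ (8 * n ^ 2 - 1).primeFactors.card ≤ X * Real.log X ^ C

/-- **TR0** (mean squares).  `|Bt| ≤ 2^ω`, `|Fv| ≤ L^K (K+1)^ω` with `ω = ω(8n²-1)` (the `l ∈ Q` with `dv l n` are
prime factors of `8n²-1`); KO. -/
def TR0_stmt : Prop := ∀ K : ℕ, ∃ C X₀ : ℕ, ∀ X : ℕ, X₀ ≤ X → ∀ (w s : ℕ) (Q : Finset ℕ),
  (∀ l ∈ Q, l.Prime) → ∀ ξ : Finset ℕ → ℝ, (∀ D ⊆ Q, |ξ D| ≤ (K : ℝ) ^ #D * Real.log X ^ K) →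
  ∀ u : ℕ → ℝ, (∀ n ∈ Icc 1 X, |u n| ≤ Real.log X ^ K) →
  ∑ n ∈ Icc 1 X, (u n * Bt w s n * Fv Q ξ n) ^ 2 ≤ X * Real.log X ^ C

/-- **TR1** (sharp cutoff against truncated sum, for every `N`).  `Bt = sh` if at most `s` primes `≤ w` divide
`8n²-1`, and `|Bt - sh| ≤ 2^ω e^(ω-s)` always.  `|sh sh - Bt Bt| ≤ |sh-Bt| sh + |Bt||sh-Bt|`; Cauchy-Schwarz
and KO: the difference is `≤ X L^(C) e^(-s)`. -/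
def TR1_stmt : Prop := ∀ K A : ℕ, ∃ S X₀ : ℕ, ∀ X : ℕ, X₀ ≤ X → ∀ (w s : ℕ) (Q₁ Q₂ : Finset ℕ),
  (S : ℝ) * Real.log (Real.log X) ≤ s → (∀ l ∈ Q₁, l.Prime) → (∀ l ∈ Q₂, l.Prime) →
  ∀ ξ₁ ξ₂ : Finset ℕ → ℝ, (∀ D ⊆ Q₁, |ξ₁ D| ≤ (K : ℝ) ^ #D * Real.log X ^ K) →
  (∀ D ⊆ Q₂, |ξ₂ D| ≤ (K : ℝ) ^ #D * Real.log X ^ K) →
  ∀ u : ℕ → ℝ, (∀ n ∈ Icc 1 X, |u n| ≤ Real.log X ^ K) → ∀ N ∈ Icc 1 X,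
  |cv N (fun n => u n * sh w n * Fv Q₁ ξ₁ n) (fun n => u n * sh w n * Fv Q₂ ξ₂ n)
    - cv N (fun n => u n * Bt w s n * Fv Q₁ ξ₁ n) (fun n => u n * Bt w s n * Fv Q₂ ξ₂ n)| ≤
    X / Real.log X ^ A

/-- **TR2** (circle method, abstract).  With `S_f(α) = ∑_{n≤X} f(n) ee(nα)` and `M = 2X+1`:
`∑_N |∑_{m+n=N} ..|² = (1/M) ∑_{j<M} |S_{a₁}S_{a₂} - S_{b₁}S_{b₂}|²(j/M)` (all `N ≤ 2X`, keep `N ≤ X`: for these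
the pairs `m+n=N`, `1 ≤ m,n`, are `m ∈ Ioo 0 N`), `a₁a₂-b₁b₂ = (a₁-b₁)a₂ + b₁(a₂-b₂)`, and
`(1/M) ∑_j |S_f|² = ∑ f²`. -/
def TR2_stmt : Prop := ∀ (X : ℕ) (a₁ a₂ b₁ b₂ : ℕ → ℝ) (ε S : ℝ), 0 ≤ ε →
  (∀ α : ℝ, ‖∑ n ∈ Ioc 0 X, ((a₁ n - b₁ n : ℝ) : ℂ) * ee (n * α)‖ ≤ ε) →
  (∀ α : ℝ, ‖∑ n ∈ Ioc 0 X, ((a₂ n - b₂ n : ℝ) : ℂ) * ee (n * α)‖ ≤ ε ∨
    ‖∑ n ∈ Ioc 0 X, (b₁ n : ℂ) * ee (n * α)‖ ≤ ε) →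
  ∑ n ∈ Ioc 0 X, a₂ n ^ 2 ≤ S → ∑ n ∈ Ioc 0 X, b₁ n ^ 2 ≤ S → ∑ n ∈ Ioc 0 X, b₂ n ^ 2 ≤ S →
  ∑ N ∈ Icc 1 X, (cv N a₁ a₂ - cv N b₁ b₂) ^ 2 ≤ 12 * ε ^ 2 * S

/-- **TR3** (expanding the divisor sums).  `Bt w s n * Fv Q ξ n = ∑_{E,D} (-1)^|E| ξ_D [dv (pr E pr D) n]`,
`d = pr E · pr D` squarefree, `≤ w^s R`, determines `(E, D)`; `|coefficient| ≤ K^ω(d) G`; split `n` into the
`≤ 2^ω(d)` classes mod `d` with `dv d n` (RT: they are prime to `d`) and take for `c d` the worst one. -/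
def TR3_stmt : Prop := ∀ (X w s K : ℕ) (G R : ℝ) (Q : Finset ℕ) (ξ : Finset ℕ → ℝ) (u : ℕ → ℝ) (α : ℝ),
  1 ≤ w → 1 ≤ K → 0 ≤ G → 1 ≤ R → (∀ l ∈ Q, l.Prime ∧ w < l) → Cf Q ξ K G R →
  ∃ c : ℕ → ℕ, Cls c ∧
  ‖∑ n ∈ Ioc 0 X, ((u n * Bt w s n * Fv Q ξ n : ℝ) : ℂ) * ee (n * α)‖ ≤
    G * ∑ d ∈ Icc 1 ⌊(w : ℝ) ^ s * R⌋₊ with Squarefree d,
      ((2 * K : ℕ) : ℝ) ^ d.primeFactors.card * ‖Sd X u d (c d) α‖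

/-- **M2** (main term of the model).  `Lw Lw sh sh = cw² 1[m % l ∉ Ω_l for all l ≤ w]`, `Ω_l` as in `om`
(`#Ω_l = om N l ≤ 6`).  Expand `Fv`: for `D₁ ∩ D₂ = ∅` the conditions `dv (pr D₁) m`, `dv (pr D₂) (N-m)` give
`2^(#D₁+#D₂)` classes modulo `pr D₁ pr D₂` (RT), each by M1 (`d = pr D₁ pr D₂`, `t = N`; `m = N` is excluded by
the sieve).  If `l ∈ D₁ ∩ D₂` and both conditions hold then `l | N(2N²-1)`; these pairs contribute at most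
`L^C' X/w + X^(θ₁+θ₂+ε)` (at most `3L` primes `l > w` divide `N(2N²-1)`; `∑_{D₁,D₂ ∋ l} .. ≤ L^C'/l`), and the
missing part of the product `Ev Ev` is `≤ L^C'/w`.  `w ≥ L^C/2` with `C ≥ C₁`. -/
def M2_stmt : Prop := ∀ θ₁ θ₂ : ℝ, 0 < θ₁ → 0 < θ₂ → θ₁ + θ₂ < 1 → ∀ K A : ℕ, ∃ C₁ : ℕ, ∀ C : ℕ, C₁ ≤ C →
  ∃ X₀ : ℕ, ∀ X : ℕ, X₀ ≤ X → ∀ Q₁ Q₂ : Finset ℕ,
  (∀ l ∈ Q₁, l.Prime ∧ wX X C < l ∧ (l % 8 = 1 ∨ l % 8 = 7)) →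
  (∀ l ∈ Q₂, l.Prime ∧ wX X C < l ∧ (l % 8 = 1 ∨ l % 8 = 7)) →
  ∀ ξ₁ ξ₂ : Finset ℕ → ℝ, Cf Q₁ ξ₁ K (Real.log X ^ K) ((X : ℝ) ^ θ₁) →
  Cf Q₂ ξ₂ K (Real.log X ^ K) ((X : ℝ) ^ θ₂) → ∀ N ∈ Icc 1 X,
  |cv N (fun n => Lw (wX X C) n * sh (wX X C) n * Fv Q₁ ξ₁ n)
      (fun n => Lw (wX X C) n * sh (wX X C) n * Fv Q₂ ξ₂ n)
    - N * VN (wX X C) N * Ev Q₁ ξ₁ * Ev Q₂ ξ₂| ≤ X / Real.log X ^ A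

/-- **AT** (the asymptotic formula for almost all `N`).  TR1 (for `u = Λ` and `u = Lw`, `s = ⌈S log L⌉`,
`w^s ≤ X^ε`), TR3 and ES give the hypotheses of TR2 with `ε = X L^(-A₁)` (levels `θ₁ < θ₁' < 1/3`,
`θ₂ < θ₂' < 1/2`; `b₁` has level `θ₁' ≤ θ₂'`, WLOG), `S` from TR0; Chebyshev; M2. -/
def AT_stmt : Prop := ∀ θ₁ θ₂ : ℝ, 0 < θ₁ → θ₁ < 1 / 3 → 0 < θ₂ → θ₂ < 1 / 2 → θ₁ ≤ θ₂ → ∀ K A : ℕ,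
  ∃ C₁ : ℕ, ∀ C : ℕ, C₁ ≤ C → ∃ X₀ : ℕ, ∀ X : ℕ, X₀ ≤ X → ∀ Q₁ Q₂ : Finset ℕ,
  (∀ l ∈ Q₁, l.Prime ∧ wX X C < l ∧ (l % 8 = 1 ∨ l % 8 = 7)) →
  (∀ l ∈ Q₂, l.Prime ∧ wX X C < l ∧ (l % 8 = 1 ∨ l % 8 = 7)) →
  ∀ ξ₁ ξ₂ : Finset ℕ → ℝ, Cf Q₁ ξ₁ K (Real.log X ^ K) ((X : ℝ) ^ θ₁) →
  Cf Q₂ ξ₂ K (Real.log X ^ K) ((X : ℝ) ^ θ₂) →
  (#((Icc 1 X).filter fun N => (X : ℝ) / Real.log X ^ A <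
    |cv N (fun n => vonMangoldt n * sh (wX X C) n * Fv Q₁ ξ₁ n)
        (fun n => vonMangoldt n * sh (wX X C) n * Fv Q₂ ξ₂ n)
      - N * VN (wX X C) N * Ev Q₁ ξ₁ * Ev Q₂ ξ₂|) : ℝ) ≤ X / Real.log X ^ A

/-! ## D. Local factor and Mertens -/

/-- **G1** (Mertens for the primes `≡ ±1 mod 8`).  `2·1[l ≡ ±1] = 1 + χ₈(l)` for odd `l`; `BB6a.mertens` and
`BB6a.Chi.mertens` (helper22/OC/BB6a.lean) for `χ = χ₈` (values `1,-1,-1,1` at `1,3,5,7` mod 8; partial sums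
in `[-1,1]`, `∑_{n≤8} χ(n)/n = 0.609..`); prime powers contribute `O(1)`. -/
def G1_stmt : Prop := ∃ C : ℝ, 0 < C ∧ ∀ x : ℝ, 1 ≤ x →
  |∑ l ∈ (Icc 1 ⌊x⌋₊).filter (fun l => l.Prime ∧ (l % 8 = 1 ∨ l % 8 = 7)), 2 * Real.log l / l
    - Real.log x| ≤ C

/-- **G2**.  Partial summation from G1. -/
def G2_stmt : Prop := ∃ C : ℝ, 0 < C ∧ ∀ (u : ℕ) (v : ℝ), 2 ≤ u → (u : ℝ) ≤ v →
  |∑ l ∈ Qs u v, 2 / (l : ℝ) - (Real.log (Real.log v) - Real.log (Real.log u))| ≤ C / Real.log u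

/-- **G3**.  `Gs ≤ ∏_{l ∈ Q} (1 + 2/(l-2)) ≤ exp(∑ 2/(l-2))`, and `2/(l-2) ≤ 2/l + 8/l²`; G2. -/
def G3_stmt : Prop := ∃ C : ℝ, 0 < C ∧ ∀ (w : ℕ) (z R : ℝ), 2 ≤ w → (w : ℝ) ≤ z → 1 ≤ R →
  1 ≤ Gs (Qs w z) R ∧ Gs (Qs w z) R ≤ C * Real.log z / Real.log w

/-- **LD** (lower bound of the local factor for even `N`).  `om N 2 = 1`; for `l ≡ ±3 mod 8` (no roots, RT)
`om ≤ 2 < l`; for `l ≡ ±1 mod 8` `om ≤ 6 < l`.  `(1-2/l)/(1-1/l)² ≥ 1 - 2/l²`-type, and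
`(1-6/l)/(1-1/l)² ≥ (1-1/l)^4·(1 - C/l²)`.. `≥ exp(-4/l - C/l²)`; `∑_{l≤w, l≡±1} 2/l ≤ log log w + C` (G2). -/
def LD_stmt : Prop := ∃ c : ℝ, 0 < c ∧ ∀ w N : ℕ, 2 ≤ w → Even N → c / Real.log w ^ 2 ≤ VN w N

/-! ## E. Selberg's sieve -/

/-- **SL1**.  `ch K A = ∑_{D ⊆ K ∩ A} (-1)^|D| pr D / 2^|D|`; `λ_D = (-1)^|D| (pr D/2^|D|) ∑_{K ∈ Sub Q R, D ⊆ K} hh K`,
`hh K = hh D hh (K\D)`, `(pr D/2^|D|) hh D = ∏ l/(l-2) ≤ 2^|D|`. -/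
def SL1_stmt : Prop := ∀ (Q : Finset ℕ) (R : ℝ), (∀ l ∈ Q, l.Prime ∧ 7 ≤ l) → 1 ≤ R →
  ∃ lam : Finset ℕ → ℝ, Cf Q lam 2 (Gs Q R) R ∧
    ∀ A ⊆ Q, ∑ D ∈ A.powerset, lam D = Sg Q R A

/-- **SL2** (products).  `ζ_D = ∑_{D₁ ∪ D₂ = D} ξ_{D₁} ξ'_{D₂}`; there are `3^|D|` such pairs. -/
def SL2_stmt : Prop := ∀ (Q : Finset ℕ) (ξ ξ' : Finset ℕ → ℝ) (K K' : ℕ) (G G' R R' : ℝ),
  (∀ l ∈ Q, 1 ≤ l) → 1 ≤ K → 1 ≤ K' → 0 ≤ G → 0 ≤ G' → 1 ≤ R → 1 ≤ R' → Cf Q ξ K G R → Cf Q ξ' K' G' R' →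
  ∃ ζ : Finset ℕ → ℝ, Cf Q ζ (3 * K * K') (G * G') (R * R') ∧
    ∀ A ⊆ Q, ∑ D ∈ A.powerset, ζ D = (∑ D ∈ A.powerset, ξ D) * ∑ D ∈ A.powerset, ξ' D

/-- **SL3**.  The probability of `D ⊆ A` is `∏_{l∈D} 2/l` (`Finset.prod_add`). -/
def SL3_stmt : Prop := ∀ (Q : Finset ℕ) (ζ F : Finset ℕ → ℝ), (∀ l ∈ Q, 1 ≤ l) →
  (∀ A ⊆ Q, ∑ D ∈ A.powerset, ζ D = F A) → Ev Q ζ = Ex Q F

/-- **SL4**.  The `ch K` are orthogonal, `E[ch_K²] = ∏ (l-2)/2 = 1/hh K`, so `E[Sg²] = ∑ hh K = Gs`.  For `l ∈ A`: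
`ch K A hh K` for `K ∌ l` and `K ∪ {l}` are `c` and `-c` (`(1 - l/2)·2/(l-2) = -1`), so
`Sg Q R A = ∑_{K ⊆ Q\l, R/l < pr K ≤ R} ch K A hh K`, independent of the event `l ∈ A`.
(Same computation with `1/l` in place of `2/l`: `Ex_Sg_one`, helper71/AA/S2.lean.) -/
def SL4_stmt : Prop := ∀ (Q : Finset ℕ) (R : ℝ), (∀ l ∈ Q, l.Prime ∧ 7 ≤ l) → 1 ≤ R →
  Ex Q (fun A => Sg Q R A ^ 2) = Gs Q R ∧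
  ∀ l ∈ Q, Ex Q (fun A => if l ∈ A then Sg Q R A ^ 2 else 0) =
    (2 / (l : ℝ)) * (Gs (Q.erase l) R - Gs (Q.erase l) (R / l))

/-- **SL5**.  `ch K A hh K = (-1)^|K ∩ A| hh (K \ A)`; each `K \ A` arises at most `2^|A|` times. -/
def SL5_stmt : Prop := ∀ (Q : Finset ℕ) (R : ℝ) (A : Finset ℕ), (∀ l ∈ Q, l.Prime ∧ 7 ≤ l) → 1 ≤ R →
  |Sg Q R A| ≤ 2 ^ #A * Gs Q R

/-- **SL** (summary).  SL1-SL4; `Vv v A = ∑_{D ⊆ A} ξ_D` with `ξ_{l} = v l`, `ξ_D = 0` for `|D| ≠ 1`. -/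
def SL_stmt : Prop := ∀ (Q : Finset ℕ) (R y V : ℝ) (v : ℕ → ℝ), (∀ l ∈ Q, l.Prime ∧ 7 ≤ l) → 1 ≤ R → 1 ≤ y →
  0 ≤ V → (∀ l ∈ Q, |v l| ≤ V ∧ (l : ℝ) ≤ y) →
  ∃ ζ₀ ζ₁ : Finset ℕ → ℝ,
    Cf Q ζ₀ 12 (Gs Q R ^ 2) (R ^ 2) ∧ Cf Q ζ₁ 36 (Gs Q R ^ 2 * V) (R ^ 2 * y) ∧
    (∀ A ⊆ Q, ∑ D ∈ A.powerset, ζ₀ D = Sg Q R A ^ 2) ∧
    (∀ A ⊆ Q, ∑ D ∈ A.powerset, ζ₁ D = Sg Q R A ^ 2 * Vv v A) ∧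
    Ev Q ζ₀ = Gs Q R ∧
    Ev Q ζ₁ = ∑ l ∈ Q, v l * (2 / (l : ℝ)) * (Gs (Q.erase l) R - Gs (Q.erase l) (R / l))

/-- **N1** (`Gs` is nearly linear in `log x`; Wirsing, Levin-Fainleib).  `G(x) = Gs Q x`, `T(x) = ∑_K hh K
log⁺(x/pr K) = ∫_1^x G dt/t`, `h(l) = 2/(l-2)`.  By G1, `|∑_{l∈Q, l≤x} h(l) log l - log x| ≤ E = log w + C` for
`1 ≤ x ≤ z`.  `∑_{pr K ≤ x} hh K log pr K = ∑_{K'} hh K' ∑_{l ≤ x/pr K', l ∉ K'} h(l) log l = T(x) + O(E G(x))` (the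
terms `l ∈ K'` cost `≤ G(x) ∑_l h(l)² log l ≤ C G(x)`), so `|G log x - 2 T| ≤ E' G`.  Hence for
`φ(x) = T(x)/log² x` and `log x ≥ 2E'`: `|φ'| ≤ 4 E' φ/(x log² x)` (right derivative), so
`|log φ(x) - log φ(z)| ≤ 4E'/log x` and `G = 2T/log x (1+O(E'/log x)) = Λ₀ log x + O(Λ₀ E')`, `Λ₀ = 2φ(z)`.
For `log x < 2E'` use monotonicity of `G`.  If `log z < 2E'` take `Λ₀ = 1/log w` (G3). -/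
def N1_stmt : Prop := ∃ C : ℝ, 1 ≤ C ∧ ∀ (w : ℕ) (z : ℝ), 2 ≤ w → (w : ℝ) ≤ z → ∃ Λ₀ : ℝ, 0 < Λ₀ ∧
  ∀ x : ℝ, 1 ≤ x → x ≤ z → |Gs (Qs w z) x - Λ₀ * Real.log x| ≤ C * Λ₀ * Real.log w

/-- **N2** (the sum over `l`).  `Gs (Q.erase l) R - Gs (Q.erase l) (R/l) ≤ Gs Q R - Gs Q (R/l)`.  For `l ≤ R` this is
`≤ Λ₀ (log l + 2C log w)`, for `l > R` it is `Gs Q R` (`Gs _ (R/l) = 0`); `Gs Q R ≥ Λ₀ (ρ L - C log w)`.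
With G1, G2 (partial summation): `∑_{l≤R} (1 - log l/(υL)) 2 log l/l /(ρL) → 1 - ρ/(2υ)`,
`∑_{R<l≤X^υ} (1-log l/(υL)) 2/l → log(υ/ρ) - 1 + ρ/υ`, the `T`-part is `≤ T δ/ρ + o(1)`, and
`(log w/L) ∑ 2/l → 0`. -/
def N2_stmt : Prop := ∀ ρ υ T κ : ℝ, 0 < ρ → ρ < υ → υ < 1 → 0 ≤ T → 0 < κ → ∃ δ₀ : ℝ, 0 < δ₀ ∧
  ∀ δ : ℝ, 0 < δ → δ ≤ δ₀ → ∀ C : ℕ, 0 < C → ∃ X₀ : ℕ, ∀ X : ℕ, X₀ ≤ X →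
  ∑ l ∈ Qs (wX X C) ((X : ℝ) ^ υ), vv υ T δ X l * (2 / (l : ℝ)) *
      (Gs ((Qs (wX X C) ((X : ℝ) ^ υ)).erase l) ((X : ℝ) ^ ρ) -
        Gs ((Qs (wX X C) ((X : ℝ) ^ υ)).erase l) ((X : ℝ) ^ ρ / l)) ≤
    (Real.log (υ / ρ) + ρ / (2 * υ) + κ) * Gs (Qs (wX X C) ((X : ℝ) ^ υ)) ((X : ℝ) ^ ρ)

/-- **NUM**.  `υ₁/ρ₁ = 7.95`, `J₁ = 2.1361..`, `T₁ = 3.4428..`; `υ₂/ρ₂ = 2.95`, `J₂ = 1.2513..`, `T₂ = 4.2103..`: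
`0.6205 + 0.2972 < 0.93`. -/
def NUM_stmt : Prop :=
  (Real.log (υ₁ / ρ₁) + ρ₁ / (2 * υ₁)) / T₁ + (Real.log (υ₂ / ρ₂) + ρ₂ / (2 * υ₂)) / T₂ ≤ 93 / 100

/-! ## F. Conclusion -/

/-- **SQ** (`8n²-1` divisible by the square of a large prime).  `l ≤ X^(1-c)`: `≤ ∑ 2 (X/l² + 1)`.
`l > X^(1-c)`: `8n² - k l² = 1` with `k ≤ 8 X^(2c)`; for fixed `k` two solutions `(n₁,l₁), (n₂,l₂)` give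
`u = 8 n₁ n₂ - k l₁ l₂`, `v = |n₂ l₁ - n₁ l₂| ≥ 1`, `u² - 8k v² = 1` and
`n₂√8 + l₂√k = (n₁√8 + l₁√k)(u ± v√(8k))`, so the solutions grow by a factor `≥ 5`: at most `1 + log X`. -/
def SQ_stmt : Prop := ∀ δ : ℝ, 0 < δ → ∃ c : ℝ, 0 < c ∧ ∃ X₀ : ℕ, ∀ X : ℕ, X₀ ≤ X →
  (#(NSq X δ) : ℝ) ≤ (X : ℝ) ^ (1 - c)

/-- **PW** (pointwise).  A prime `l | 8n²-1` is `≡ ±1 mod 8` (RT), and `> w` since `sh = 1`.  If `l ≤ X^δ` then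
`l ∈ At`, `vv l ≥ T` and all `vv ≥ 0`: contradiction.  `∑_{l | 8n²-1} (1 - log l/(υL)) ≤ Vv < T` (the primes
`> X^υ` contribute `≤ 0`), so `ω(8n²-1) < T + log(8X²)/(υ L) < 11`. -/
def PW_stmt : Prop := ∀ υ T δ : ℝ, 0 < υ → 0 < T → 0 < δ → δ ≤ υ → T + 2 / υ < 11 → ∃ X₀ : ℕ, ∀ X : ℕ, X₀ ≤ X →
  ∀ w : ℕ, ∀ n ∈ Icc 1 X, sh w n = 1 → Vv (vv υ T δ X) (At (Qs w ((X : ℝ) ^ υ)) n) < T →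
  (∀ l : ℕ, l.Prime → l ∣ 8 * n ^ 2 - 1 → (X : ℝ) ^ δ < l) ∧ (8 * n ^ 2 - 1).primeFactors.card ≤ 10

/-- **F1** (lower bound of the total weight for almost all even `N`).  SL for `Q_i = Qs w X^υᵢ`, `R = X^ρᵢ`,
`v = vv υᵢ Tᵢ δ X`, `V = Tᵢ+1`: `a0`, `a1` are `Λ · sh · Fv Q ζ` (`Fv Q ζ n = ∑_{D ⊆ At Q n} ζ_D`), supports
`2ρ₁+υ₁ = 0.33166.. < 1/3`, `2ρ₂+υ₂ = 0.495 < 1/2`; sizes `≤ 36^|D| L^36` (G3).  AT for the three pairs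
(`C` large for all), union of the three exceptional sets.  Main term `N VN G1 G2 (1 - J₁'/T₁ - J₂'/T₂)` with
N2 (`κ` small, `δ` small), NUM, LD; the errors `X/L^A` are smaller than the main term `≥ c X/(log w)²`.
`c` depends only on LD. -/
def F1_stmt : Prop := ∃ c δ : ℝ, 0 < c ∧ 0 < δ ∧ δ ≤ 1 / 5 ∧ ∀ A : ℕ, ∃ C X₀ : ℕ, 0 < C ∧ ∀ X : ℕ, X₀ ≤ X →
  (#((Icc 1 X).filter fun N => Even N ∧ X ≤ 2 * N ∧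
    WW X C δ N < c * X / Real.log (wX X C) ^ 2 * G1 X C * G2 X C) : ℝ) ≤ X / Real.log X ^ A

/-- **F2** (from the weight to the number of representations).  `WW = ∑_{m+n=N} Λ(m)Λ(n) sh sh Sg² Sg² (1 - V₁/T₁ -
V₂/T₂)`; keep the terms with positive bracket: then `V₁(m) < T₁`, `V₂(n) < T₂`, PW applies to `m` and `n`
(`#At ≤ 10`, so `Sg² ≤ 4^10 G²` by SL5).  Terms with `m` or `n` a proper prime power (`≤ 2√X L` of them) or with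
`8m²-1` or `8n²-1` not squarefree (SQ) are negligible: `≤ X^(1-c'') G1² G2²`.  The others are `Good (X^δ)`,
and `N ≤ X`.  So `#Reps ≥ WW/(L² 4^20 G1² G2²) - X^(1-c'')`, and `G1, G2 ≤ C L/log w` (G3). -/
def F2_stmt : Prop := ∀ c δ : ℝ, 0 < c → 0 < δ → δ ≤ 1 / 5 → ∃ c' : ℝ, 0 < c' ∧ ∀ C : ℕ, 0 < C → ∃ X₀ : ℕ,
  ∀ X : ℕ, X₀ ≤ X → ∀ N : ℕ, N ≤ X → X ≤ 2 * N →
  c * X / Real.log (wX X C) ^ 2 * G1 X C * G2 X C ≤ WW X C δ N →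
  c' * N / Real.log N ^ 4 ≤ ((Reps ((N : ℝ) ^ δ) N).ncard : ℝ)

/-- **F3** (the theorem).  Dyadic decomposition of `[1, X]` into `(X/2^(j+1), X/2^j]`, F1 and F2 on the blocks with
`X/2^j ≥ √X`, trivial bound below. -/
def F3_stmt : Prop := ∃ c δ : ℝ, 0 < c ∧ 0 < δ ∧ ∀ A : ℕ, ∃ K : ℝ, ∀ X : ℝ, 2 ≤ X →
  ({N : ℕ | Even N ∧ (N : ℝ) ≤ X ∧ ((Reps ((N : ℝ) ^ δ) N).ncard : ℝ) < c * N / Real.log N ^ 4}.ncard : ℝ) ≤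
    K * X / Real.log X ^ A

end GD
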