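import Pool.Agent.helper65.GD.Spec

/-! # Row gdm:IDA (MP_ea335c_an): the first identity -/

set_option autoImplicit false

namespace Pool.Agent.GD

open Finset Metric Filter Topology

theorem IDA_one (s : ℂ) (μ G : ℕ → ℂ) (k r : ℕ) (hG : Rec s μ G) :
    s * ∑ m ∈ range k, μ (k + r - m) * G m =
      ((k : ℂ) + r) * G (k + r) - s * ∑ t ∈ range r, μ (r - t) * G (k + t) := by
  have h := hG.2 (k + r)
  rw [Finset.sum_range_add] at h
  have h2 : ∑ t ∈ range r, μ (k + r - (k + t)) * G (k + t) =
      ∑ t ∈ range r, μ (r - t) * G (k + t) := by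
    apply Finset.sum_congr rfl
    intro t _
    rw [Nat.add_sub_add_left]
  rw [h2] at h
  push_cast at h
  rw [h]
  ring

theorem IDA : IDA_stmt := by
  intro s μ G H k i hG hH
  -- step 1
  have h1 : s * ∑ m ∈ range k, ∑ l ∈ range i, μ ((k - m) + (i - l)) * G m * H l =
      ∑ l ∈ range i, H l * (s * ∑ m ∈ range k, μ (k + (i - l) - m) * G m) := by
    rw [Finset.sum_comm, Finset.mul_sum]
    apply Finset.sum_congr rfl
    intro l hl
    rw [Finset.mul_sum, Finset.mul_sum, Finset.mul_sum]
    apply Finset.sum_congr rfl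
    intro m hm
    have hm' := Finset.mem_range.1 hm
    have e : k - m + (i - l) = k + (i - l) - m := by omega
    rw [e]
    ring
  have h2 : ∑ l ∈ range i, H l * (s * ∑ m ∈ range k, μ (k + (i - l) - m) * G m) =
      ∑ l ∈ range i, ((k : ℂ) + ((i - l : ℕ) : ℂ)) * (G (k + (i - l)) * H l) -
        ∑ l ∈ range i, ∑ t ∈ range (i - l), s * (μ (i - l - t) * G (k + t) * H l) := by
    rw [← Finset.sum_sub_distrib]
    apply Finset.sum_congr rfl
    intro l _
    rw [IDA_one s μ G k (i - l) hG, ← Finset.mul_sum, mul_sub]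
    have e : ∑ t ∈ range (i - l), μ (i - l - t) * G (k + t) * H l =
        (∑ t ∈ range (i - l), μ (i - l - t) * G (k + t)) * H l := by
      rw [Finset.sum_mul]
    rw [e]
    ring
  have h3 : ∑ l ∈ range i, ∑ t ∈ range (i - l), s * (μ (i - l - t) * G (k + t) * H l) =
      ∑ t ∈ range i, -(((i - t : ℕ) : ℂ) * (G (k + t) * H (i - t))) := by
    rw [Finset.sum_comm' (s' := fun t => range (i - t)) (t' := range i) (by
      intro x y
      simp only [Finset.mem_range]
      omega)]
    apply Finset.sum_congr rfl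
    intro t ht
    have h := hH.2 (i - t)
    have e : ((i - t : ℕ) : ℂ) * (G (k + t) * H (i - t)) =
        G (k + t) * (-s * ∑ m ∈ range (i - t), μ (i - t - m) * H m) := by
      rw [← h]
      ring
    rw [e, Finset.mul_sum, Finset.mul_sum, ← Finset.sum_neg_distrib]
    apply Finset.sum_congr rfl
    intro l _
    have e2 : i - l - t = i - t - l := by omega
    rw [e2]
    ring
  have h4 : ∑ t ∈ range (i + 1), ((k : ℂ) + t) * (G (k + t) * H (i - t)) =
      ∑ l ∈ range i, ((k : ℂ) + ((i - l : ℕ) : ℂ)) * (G (k + (i - l)) * H l) + k * (G k * H i) := by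
    rw [← Finset.sum_range_reflect, Finset.sum_range_succ]
    congr 1
    · apply Finset.sum_congr rfl
      intro l hl
      have hl' := Finset.mem_range.1 hl
      have e1 : i + 1 - 1 - l = i - l := by omega
      have e2 : i - (i - l) = l := by omega
      rw [e1, e2]
    · have e1 : i + 1 - 1 - i = 0 := by omega
      rw [e1]
      simp
  have h5 : ∑ t ∈ range (i + 1), ((i : ℂ) - t) * (G (k + t) * H (i - t)) =
      ∑ t ∈ range i, ((i - t : ℕ) : ℂ) * (G (k + t) * H (i - t)) := by
    rw [Finset.sum_range_succ, sub_self, zero_mul, add_zero]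
    apply Finset.sum_congr rfl
    intro t ht
    have ht' := Finset.mem_range.1 ht
    rw [Nat.cast_sub ht'.le]
  have h6 : ((k : ℂ) + i) * ∑ t ∈ range (i + 1), G (k + t) * H (i - t) =
      ∑ t ∈ range (i + 1), ((k : ℂ) + t) * (G (k + t) * H (i - t)) +
        ∑ t ∈ range (i + 1), ((i : ℂ) - t) * (G (k + t) * H (i - t)) := by
    rw [Finset.mul_sum, ← Finset.sum_add_distrib]
    apply Finset.sum_congr rfl
    intro t _
    ring
  rw [h1, h2, h3, h6, h4, h5, Finset.sum_neg_distrib]
  ring

end Pool.Agent.GD
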