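import Pool.Agent.helper8.GD.Spec

/-! Project GD, module SL. -/

set_option autoImplicit false

namespace GD

open Finset

lemma SL_Gs_nonneg (Q : Finset ℕ) (R : ℝ) (hQ : ∀ l ∈ Q, l.Prime ∧ 7 ≤ l) : 0 ≤ Gs Q R := by
  unfold Gs hh
  refine sum_nonneg fun K hK => prod_nonneg fun l hl => ?_
  have hKQ : K ⊆ Q := mem_powerset.1 (mem_filter.1 hK).1
  have h7 : (7 : ℝ) ≤ (l : ℝ) := by exact_mod_cast (hQ l (hKQ hl)).2
  exact div_nonneg (by norm_num) (by linarith)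

/-- the coefficients of `Vv v` -/
noncomputable def SL_xi (v : ℕ → ℝ) (D : Finset ℕ) : ℝ := if #D = 1 then ∑ l ∈ D, v l else 0

lemma SL_xi_sum (v : ℕ → ℝ) (A : Finset ℕ) : ∑ D ∈ A.powerset, SL_xi v D = Vv v A := by
  have h1 : ∑ D ∈ A.powerset, SL_xi v D = ∑ D ∈ A.powersetCard 1, ∑ l ∈ D, v l := by
    unfold SL_xi
    rw [← sum_filter, powersetCard_eq_filter]
  rw [h1, powersetCard_one, sum_map]
  simp [Vv]

theorem SL (h1 : SL1_stmt) (h2 : SL2_stmt) (h3 : SL3_stmt) (h4 : SL4_stmt) : SL_stmt := by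
  intro Q R y V v hQ hR hy hV hv
  have hQ1 : ∀ l ∈ Q, 1 ≤ l := fun l hl => by have := (hQ l hl).2; omega
  have hG := SL_Gs_nonneg Q R hQ
  obtain ⟨lam, hlam, hlams⟩ := h1 Q R hQ hR
  obtain ⟨ζ₀, hζ₀, hζ₀s⟩ := h2 Q lam lam 2 2 (Gs Q R) (Gs Q R) R R hQ1 (by norm_num) (by norm_num)
    hG hG hR hR hlam hlam
  have hxi : Cf Q (SL_xi v) 1 V y := by
    intro D hD
    have hDQ : D ⊆ Q := mem_powerset.1 hD
    unfold SL_xi
    by_cases hc : #D = 1
    · obtain ⟨l, rfl⟩ := card_eq_one.1 hc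
      have hl : l ∈ Q := hDQ (mem_singleton_self l)
      simp only [card_singleton, if_true, sum_singleton, pr, prod_singleton]
      refine ⟨by simpa using (hv l hl).1, fun _ => (hv l hl).2⟩
    · simp only [hc, if_false]
      refine ⟨?_, fun h => absurd rfl h⟩
      simp only [abs_zero, Nat.cast_one, one_pow, one_mul]
      exact hV
  have hR2 : 1 ≤ R * R := by nlinarith
  obtain ⟨ζ₁, hζ₁, hζ₁s⟩ := h2 Q ζ₀ (SL_xi v) (3 * 2 * 2) 1 (Gs Q R * Gs Q R) V (R * R) y hQ1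
    (by norm_num) (by norm_num) (mul_nonneg hG hG) hV hR2 hy hζ₀ hxi
  have hs0 : ∀ A ⊆ Q, ∑ D ∈ A.powerset, ζ₀ D = Sg Q R A ^ 2 := by
    intro A hA
    rw [hζ₀s A hA, hlams A hA]; ring
  have hs1 : ∀ A ⊆ Q, ∑ D ∈ A.powerset, ζ₁ D = Sg Q R A ^ 2 * Vv v A := by
    intro A hA
    rw [hζ₁s A hA, hs0 A hA, SL_xi_sum]
  refine ⟨ζ₀, ζ₁, ?_, ?_, hs0, hs1, ?_, ?_⟩
  · have := hζ₀
    simpa [pow_two] using this
  · have := hζ₁
    simpa [pow_two] using this
  · rw [h3 Q ζ₀ (fun A => Sg Q R A ^ 2) hQ1 hs0]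
    exact (h4 Q R hQ hR).1
  · rw [h3 Q ζ₁ (fun A => Sg Q R A ^ 2 * Vv v A) hQ1 hs1]
    have hE : Ex Q (fun A => Sg Q R A ^ 2 * Vv v A) =
        ∑ l ∈ Q, v l * Ex Q (fun A => if l ∈ A then Sg Q R A ^ 2 else 0) := by
      unfold Ex
      simp only [mul_sum]
      rw [sum_comm]
      refine sum_congr rfl fun A hA => ?_
      have hAQ : A ⊆ Q := mem_powerset.1 hA
      have hV2 : Vv v A = ∑ l ∈ Q, if l ∈ A then v l else 0 := by
        unfold Vv
        rw [← sum_filter]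
        congr 1
        ext l
        simp only [mem_filter]
        exact ⟨fun h => ⟨hAQ h, h⟩, fun h => h.2⟩
      rw [hV2]
      simp only [mul_sum]
      refine sum_congr rfl fun l _ => ?_
      by_cases hl : l ∈ A
      · simp only [hl, if_true]; ring
      · simp only [hl, if_false]; ring
    rw [hE]
    refine sum_congr rfl fun l hl => ?_
    rw [(h4 Q R hQ hR).2 l hl]; ring

end GD
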