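import Pool.Agent.helper1.GD.SQ
import Pool.Agent.helper11.GD.E2
import Pool.Agent.helper12.GD.F2
import Pool.Agent.helper16.GD.LD
import Pool.Agent.helper16.GD.RT
import Pool.Agent.helper16.GD.TR1
import Pool.Agent.helper17.GD.AT
import Pool.Agent.helper18.GD.SL4
import Pool.Agent.helper20.GD.BV1
import Pool.Agent.helper21.GD.SL3
import Pool.Agent.helper23.GD.N2
import Pool.Agent.helper23.GD.TR0
import Pool.Agent.helper27.GD.SL1
import Pool.Agent.helper30.GD.E6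
import Pool.Agent.helper38.GD.E8
import Pool.Agent.helper4.GD.E1
import Pool.Agent.helper43.GD.E5
import Pool.Agent.helper43.GD.F3
import Pool.Agent.helper45.GD.E4
import Pool.Agent.helper46.GD.BV2
import Pool.Agent.helper51.GD.E9
import Pool.Agent.helper51.GD.ES
import Pool.Agent.helper51.GD.PW
import Pool.Agent.helper52.GD.CW
import Pool.Agent.helper57.GD.TR2
import Pool.Agent.helper58.GD.M1
import Pool.Agent.helper6.GD.M2
import Pool.Agent.helper63.GD.G3
import Pool.Agent.helper70.GD.BV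
import Pool.Agent.helper71.GD.F1
import Pool.Agent.helper72.GD.E11
import Pool.Agent.helper72.GD.G1
import Pool.Agent.helper72.GD.TR3
import Pool.Agent.helper73.GD.KO
import Pool.Agent.helper74.GD.N1
import Pool.Agent.helper78.GD.G2
import Pool.Agent.helper79.GD.E7
import Pool.Agent.helper8.GD.SL
import Pool.Agent.helper92.GD.BV4
import Pool.Agent.helper97.GD.BV3
import Pool.Agent.helper99.GD.NUM
import Pool.Agent.helper99.GD.SL2

/-!
# Project GD: assembly

All the statements of `Pool.Agent.helper8.GD.Spec` put together.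
-/

set_option autoImplicit false

namespace GD

theorem Final : F3_stmt := by
  have h_SL1 : SL1_stmt := GD.SL1
  have h_SL2 : SL2_stmt := GD.SL2
  have h_SL3 : SL3_stmt := GD.SL3
  have h_SL4 : SL4_stmt := GD.SL4
  have h_SL : SL_stmt := GD.SL h_SL1 h_SL2 h_SL3 h_SL4
  have h_RT : RT_stmt := GD.RT
  have h_KO : KO_stmt := GD.KO h_RT
  have h_TR0 : TR0_stmt := GD.TR0 h_KO
  have h_TR1 : TR1_stmt := GD.TR1 h_KO
  have h_TR2 : TR2_stmt := GD.TR2
  have h_TR3 : TR3_stmt := GD.TR3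
  have h_E1 : E1_stmt := GD.E1
  have h_E2 : E2_stmt := GD.E2
  have h_E4 : E4_stmt := GD.E4
  have h_E5 : E5_stmt := GD.E5
  have h_E6 : E6_stmt := GD.E6 h_E2 h_E4 h_E5
  have h_E7 : E7_stmt := GD.E7 h_E1 h_E6
  have h_CW : CW_stmt := GD.CW
  have h_E8 : E8_stmt := GD.E8 h_E1 h_CW
  have h_BV1 : BV1_stmt := GD.BV1
  have h_BV2 : BV2_stmt := GD.BV2
  have h_BV3 : BV3_stmt := GD.BV3 h_BV1 h_BV2
  have h_BV4 : BV4_stmt := GD.BV4
  have h_BV : BV_stmt := GD.BV h_BV3 h_BV4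
  have h_M1 : M1_stmt := GD.M1
  have h_E11 : E11_stmt := GD.E11 h_M1
  have h_E9 : E9_stmt := GD.E9 h_BV h_E11
  have h_ES : ES_stmt := GD.ES h_E7 h_E8 h_E9 h_CW
  have h_M2 : M2_stmt := GD.M2 h_RT h_M1 h_CW
  have h_AT : AT_stmt := GD.AT h_TR0 h_TR1 h_TR2 h_TR3 h_ES h_M2 h_CW
  have h_G1 : G1_stmt := GD.G1_thm
  have h_G2 : G2_stmt := GD.G2_main h_G1
  have h_G3 : G3_stmt := GD.G3 h_G2
  have h_N1 : N1_stmt := GD.N1 h_G1 h_G3
  have h_N2 : N2_stmt := GD.N2 h_N1 h_G1 h_G2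
  have h_NUM : NUM_stmt := GD.NUM
  have h_LD : LD_stmt := GD.LD h_RT h_G2
  have h_F1 : F1_stmt := GD.F1 h_SL h_AT h_N2 h_NUM h_LD h_G3
  have h_PW : PW_stmt := GD.PW h_RT
  have h_SL5 : SL5_stmt := GD.SL5
  have h_SQ : SQ_stmt := GD.SQ
  have h_F2 : F2_stmt := GD.F2 h_PW h_SL5 h_SQ h_G3
  have h_F3 : F3_stmt := GD.F3 h_F1 h_F2
  exact h_F3

end GD
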